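import Pool.Agent.Helper88_SA.StmtP

/-! SA, module CONT (C29): the modes are continuous in T. -/

namespace SA.H28

open Filter Topology SA

lemma Tlo_pos : 0 < Tlo := by
  unfold Tlo Tm
  positivity

lemma contB {S : Set ℝ} {f : ℝ → St} (hQ : ∀ j, ContinuousOn (fun T => (f T).Q j) S)
    (hE : ContinuousOn (fun T => (f T).E) S) : ContinuousOn (fun T => (f T).B) S := by
  have h : (fun T => (f T).B) = fun T => (Finset.range 56).inf' ⟨0, by simp⟩
      (fun k => ((f T).E + ∑ j ∈ Finset.Ico k 56, (f T).Q j) / (56 - (k : ℝ))) := by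
    funext T; rfl
  rw [h]
  refine ContinuousOn.finset_inf'_apply _ ?_
  intro k _
  refine ContinuousOn.div_const ?_ _
  exact hE.add (continuousOn_finsetSum _ (fun j _ => hQ j))

lemma contIns {S : Set ℝ} {f : ℝ → St} (hQ : ∀ j, ContinuousOn (fun T => (f T).Q j) S)
    (hE : ContinuousOn (fun T => (f T).E) S) (j : ℕ) :
    ContinuousOn (fun T => (f T).ins j) S := by
  have hB := contB hQ hE
  unfold St.ins
  by_cases h0 : j = 0
  · simp only [h0, if_true]
    exact (hQ 0).sup hB
  · by_cases h1 : j < 56
    · simp only [h0, h1, if_false, if_true]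
      exact (hQ j).sup ((hQ (j - 1)).inf hB)
    · simp only [h0, h1, if_false]
      exact continuousOn_const

lemma contGr (n : ℕ) : (∀ j, ContinuousOn (fun T => (gr T n).Q j) (Set.Icc Tlo Thi)) ∧
    ContinuousOn (fun T => (gr T n).E) (Set.Icc Tlo Thi) := by
  have hid : ContinuousOn (fun T : ℝ => T) (Set.Icc Tlo Thi) := continuousOn_id
  have hne : ∀ T ∈ Set.Icc Tlo Thi, T ≠ 0 := fun T hT =>
    ne_of_gt (lt_of_lt_of_le Tlo_pos hT.1)
  induction n with
  | zero =>
    constructor
    · intro j
      exact continuousOn_const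
    · exact continuousOn_const.sub (continuousOn_const.div hid hne)
  | succ n ih =>
    have hI : ∀ j, ContinuousOn (fun T => (gr T n).ins j) (Set.Icc Tlo Thi) :=
      contIns ih.1 ih.2
    constructor
    · intro j
      exact hI j
    · have h : (fun T => (gr T (n + 1)).E) = fun T => (gr T n).E
          - (56 - ∑ j ∈ Finset.range 56, (gr T n).ins j) / T := rfl
      rw [h]
      exact ih.2.sub ((continuousOn_const.sub
        (continuousOn_finsetSum _ (fun j _ => hI j))).div hid hne)

lemma contGam {S : Set ℝ} {xf : ℝ → ℝ} (hx : ContinuousOn xf S) (h1 : ∀ T ∈ S, xf T - 1 ≠ 0)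
    (r : ℕ) : ContinuousOn (fun T => gam T (xf T) r) S := by
  induction r with
  | zero => exact continuousOn_const
  | succ r ih =>
    have h : (fun T => gam T (xf T) (r + 1)) = fun T => xf T / (xf T - 1) ^ 2
        - ((r : ℝ) + 1) * T + xf T * gam T (xf T) r := rfl
    rw [h]
    refine ((hx.div ((hx.sub continuousOn_const).pow 2) ?_).sub
      (continuousOn_const.mul continuousOn_id)).add (hx.mul ih)
    intro T hT
    exact pow_ne_zero 2 (h1 T hT)

lemma contR (n : ℕ) : ContinuousOn (fun T => (gr T n).R) (Set.Icc Tlo Thi) := by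
  unfold St.R
  exact continuousOn_const.sub (continuousOn_finsetSum _ (fun j _ => (contGr n).1 j))

lemma contPhi {xf : ℝ → ℝ} (hx : ContinuousOn xf (Set.Icc Tlo Thi))
    (h1 : ∀ T ∈ Set.Icc Tlo Thi, xf T - 1 ≠ 0) (n : ℕ) :
    ContinuousOn (fun T => PhiR T (xf T) n) (Set.Icc Tlo Thi) := by
  unfold PhiR Nd
  refine ((continuousOn_finsetSum _ (fun d _ => ?_)).sub ?_).sub ?_
  · exact (((contGr n).1 (d - 1)).sub ((contGr n).1 d)).mul (contGam hx h1 (56 - d))
  · exact ((contR n).add (continuousOn_id.mul (contGr n).2)).div (hx.sub continuousOn_const) h1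
  · refine (contR n).div ((hx.sub continuousOn_const).pow 2) ?_
    intro T hT
    exact pow_ne_zero 2 (h1 T hT)

theorem cont : ContStmt := by
  intro x0f zf hx hz hb n
  refine ⟨?_, ?_⟩
  · unfold Cn
    refine continuousOn_const.mul (contPhi hx ?_ n)
    intro T hT
    have := (hb T hT).1
    linarith
  · unfold zn
    refine continuousOn_const.mul (contPhi hz ?_ n)
    intro T hT h
    have := (hb T hT).2.1
    linarith

end SA.H28
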