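import Pool.Agent.Helper88_SA.StmtP

/-! SA, modules NOP (C19) and START (C33). -/

namespace SA.H28

open Filter Topology SA

theorem nop (a : AlgA) : NopStmt := by
  intro T n hn hval hk hW
  obtain ⟨p, rfl⟩ : ∃ p, n = p + 1 := ⟨n - 1, by omega⟩
  rw [show p + 1 - 1 = p by omega] at hk
  have hvp : Valid T p := hval p (by omega)
  have hq := (a.qzero T p (fun m hm => hval m (by omega))).2.2.2.2.1 hk
  -- D = 0 at p
  have hDp : Dn T p = 0 := by
    unfold Dn
    refine Finset.sum_eq_zero (fun j hj => ?_)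
    have h1 := (a.sort T p).1 0 j (Nat.zero_le j) (Finset.mem_range.1 hj)
    have h2 : (gr T p).Q j - (gr T p).B ≤ 0 := by
      have : (gr T p).Q 0 ≤ (gr T p).B := hq
      linarith
    exact max_eq_right h2
  have hcp := (a.bar T p hvp).2.2
  rw [hDp, add_zero] at hcp
  have hcn : 56 * Bn T p < cst T (p + 1) := by
    unfold Wn at hW
    rw [show p + 1 - 1 = p by omega] at hW
    have : 0 < cst T (p + 1) - cst T p := by
      by_contra h
      have h' := not_lt.1 h
      have : (cst T (p + 1) - cst T p) / 56 ≤ 0 := div_nonpos_of_nonpos_of_nonneg h' (by norm_num)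
      linarith
    linarith
  have hQ0 : (gr T (p + 1)).Q 0 = Bn T p := by
    have h1 : (gr T (p + 1)).Q 0 = max ((gr T p).Q 0) (gr T p).B := by
      change (gr T p).ins 0 = _
      unfold St.ins
      simp
    rw [h1]
    exact max_eq_right hq
  set x : ℝ := cst T (p + 1) / 56 with hx
  have hxgt : (gr T (p + 1)).Q 0 < x := by
    rw [hQ0, hx, lt_div_iff₀ (by norm_num)]
    linarith
  have hall : ∀ j, j < 56 → (gr T (p + 1)).Q j ≤ (gr T (p + 1)).Q 0 := fun j hj =>
    (a.sort T (p + 1)).1 0 j (Nat.zero_le j) hj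
  have hBx : x ≤ Bn T (p + 1) := by
    refine a.barge T (p + 1) x ?_
    have : ∑ j ∈ Finset.range 56, max ((gr T (p + 1)).Q j - x) 0 = 0 := by
      refine Finset.sum_eq_zero (fun j hj => ?_)
      have := hall j (Finset.mem_range.1 hj)
      exact max_eq_right (by linarith)
    rw [this, hx]
    linarith [mul_div_cancel₀ (cst T (p + 1)) (show (56 : ℝ) ≠ 0 by norm_num)]
  have hB : (gr T (p + 1)).Q 0 < (gr T (p + 1)).B := lt_of_lt_of_le hxgt hBx
  refine ⟨?_, ?_, ?_, hB⟩
  · exact le_trans (hall 55 (by norm_num)) hB.le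
  · unfold kap
    rw [Finset.card_eq_zero, Finset.filter_eq_empty_iff]
    intro j hj
    have := hall j (Finset.mem_range.1 hj)
    linarith
  · unfold Dn
    refine Finset.sum_eq_zero (fun j hj => ?_)
    have := hall j (Finset.mem_range.1 hj)
    exact max_eq_right (by linarith)

theorem start (b : NumA) (hEW : EWStmt) (hNop : NopStmt) (hRef : RefStmt) (hBack : BackStmt)
    (hCyc : CycbStmt) : StartStmt := by
  intro T x0 z th hx hPP n
  have hHH : ∀ k, HH T x0 z th k := fun k i _ => hPP i
  have hR := fun k => hRef T x0 z th hx k (hHH k)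
  -- cyc is unbounded
  have hunb : ∀ j : ℕ, ∃ k, (j : ℤ) ≤ cyc T x0 th k := by
    intro j
    induction j with
    | zero => exact ⟨0, by simpa using (hR 0).1⟩
    | succ j ih =>
      obtain ⟨k0, hk0⟩ := ih
      refine ⟨k0 + 49, ?_⟩
      by_contra hc
      have hc' : cyc T x0 th (k0 + 49) ≤ j := by push_cast at hc; omega
      have h0 := (hR (k0 + 49)).1
      obtain ⟨j', hj'⟩ := Int.eq_ofNat_of_zero_le h0
      have h1 := ((hR (k0 + 49)).2.2 j' (by omega)).2.2.2.2.2.2.2 hj'
      have hle : ref T x0 th j' ≤ k0 := by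
        unfold ref
        refine Nat.sInf_le ?_
        change (j' : ℤ) ≤ cyc T x0 th k0
        omega
      omega
  obtain ⟨K, hK⟩ := hunb (n + 1)
  have hK' : ((n : ℤ)) + 1 ≤ cyc T x0 th K := by exact_mod_cast hK
  have hlen : ∀ j : ℕ, j ≤ n → 48 * j ≤ ref T x0 th j := by
    intro j
    induction j with
    | zero => intro _; omega
    | succ j ih =>
      intro hj
      have h1 := ih (by omega)
      have h2 := ((hR K).2.2 j (by omega)).2.2.2.2.2.2.1 (by omega)
      omega
  have hn := hlen n le_rfl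
  set r := ref T x0 th n with hr
  obtain ⟨hrK, hcr, hpr, hcell, _, _, hnext, _⟩ := (hR K).2.2 n (by omega)
  rw [← hr] at hcell hcr hpr
  have hkap : kap T (1525 + r) = 0 := by
    have h1 := (hPP r).kle
    have h2 : dmt (cell T x0 th r) = 0 := by
      unfold dmt
      rw [if_neg]
      omega
    omega
  have hcyc := hCyc T x0 z th hx (r + 1)
  have hcb := hCyc T x0 z th hx r
  -- the cell of r + 1
  have hc24 : 24 ≤ cell T x0 th (r + 1) := by
    by_contra hlt
    have hlt' := not_le.1 hlt
    obtain ⟨g1, _, g3⟩ := hBack T x0 z th hx (r + 1) (hHH (r + 1)) 1 (by omega)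
      (by push_cast; omega)
    have g4 := g3 (by push_cast; omega)
    rw [show r + 1 - 1 = r by omega] at g1 g4
    have g5 : pp T x0 th r - pp T x0 th (r + 1) = ph T x0 th r - ph T x0 th (r + 1) := by
      unfold pp
      rw [g4]
      ring
    have g6 := (abs_le.1 g1).2
    have g7 : ((cell T x0 th (r + 1) : ℤ) : ℝ) ≤ 23 := by
      have : cell T x0 th (r + 1) ≤ 23 := by omega
      exact_mod_cast this
    have g8 := hcyc.2.2.2.1
    push_cast at g6
    have g9 : pp T x0 th (r + 1) < 24 / 8 := by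
      refine lt_of_lt_of_le g8 ?_
      linarith
    linarith
  have hWt := b.w.wpos (cell T x0 th (r + 1)) (by omega) hcyc.2.2.2.2.2.1 (Or.inr hc24)
  have hPr := hPP (r + 1)
  have hEW1 := hEW T x0 z th hx (r + 1) (hHH (r + 1))
    ⟨hPr.Cpos, hPr.Alo, hPr.Ahi, hPr.zlo, hPr.zhi⟩ 0 (Nat.zero_le _)
    (by have := hcyc.2.2.2.2.2.1; push_cast; omega)
  rw [show r + 1 - 0 = r + 1 by omega] at hEW1
  have hWpos : 0 < Wn T (1525 + (r + 1)) := by
    refine lt_of_lt_of_le ?_ hEW1
    refine mul_pos hPr.Cpos (div_pos ?_ (by norm_num))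
    rw [show cell T x0 th (r + 1) + 8 * ((0 : ℕ) : ℤ) = cell T x0 th (r + 1) by push_cast; ring]
    exact_mod_cast hWt
  have hfin := hNop T (1525 + (r + 1)) (by omega) (by
      intro m hm
      by_cases h1 : m < 1525
      · exact hx.sim.valid m h1
      · have := (hPP (m - 1525)).val
        rwa [show 1525 + (m - 1525) = m by omega] at this)
    (by rw [show 1525 + (r + 1) - 1 = 1525 + r by omega]; exact hkap) hWpos
  exact ⟨1525 + (r + 1), by omega, hfin.2.2.2⟩

end SA.H28
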