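import Pool.Agent.Helper88_SA.StmtP

/-! SA, module TSTAR (C30): choice of T by connectedness of [Tlo, Thi]. -/

namespace SA.H28

open Filter Topology SA

/-- one step from a good state -/
lemma stepTools (hP : IntPass) (hC : StepCStmt) {T x0 z : ℝ} {th : ℂ} (hx : Ctx T x0 z th)
    {k : ℕ} (h : ∀ i, i ≤ k → PP T x0 z th i) :
    0 < Cn T x0 (1525 + k + 1) ∧
    (ztn T x0 z (1525 + k) ≤ 0 → ztn T x0 z (1525 + k + 1) ≤ 0) ∧
    (2.5 / 10 ^ 4 < ztn T x0 z (1525 + k) → 2.5 / 10 ^ 4 < ztn T x0 z (1525 + k + 1)) ∧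
    (Dn T (1525 + k) = 0 → ztn T x0 z (1525 + k + 1) = x0 / z * ztn T x0 z (1525 + k)) := by
  have hk := h k le_rfl
  have hval : ∀ m, m ≤ 1525 + k → Valid T m := by
    intro m hm
    by_cases h1 : m < 1525
    · exact hx.sim.valid m h1
    · have := (h (m - 1525) (by omega)).val
      rwa [show 1525 + (m - 1525) = m by omega] at this
  have hkap : kap T (1525 + k) ≤ 10 := by
    have h1 := hk.kle
    have h2 := hP.dmax (cell T x0 th k)
    omega
  have hD : Dn T (1525 + k) ≤ 2 * Cn T x0 (1525 + k) := by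
    refine le_trans hk.Dle ?_
    have h2 : (Dt (cell T x0 th k) : ℝ) ≤ 2000000 := by exact_mod_cast hP.Dmax (cell T x0 th k)
    have h3 := hk.Cpos
    nlinarith
  obtain ⟨_, _, h3, h4, h5, h6⟩ := hC T x0 z th hx (1525 + k) hval hk.Cpos hkap hD
  exact ⟨h3, h4, h5, fun h0 => (h6 h0).2.1⟩

theorem tstar (hP : IntPass) (hCtx : CtxStmt) (hRoots : RootsStmt) (hSign : SignStmt)
    (hMain : MainStmt) (hQuiet : QuietStmt) (hC : StepCStmt) (hCont : ContStmt) :
    TstarStmt := by
  obtain ⟨x0f, zf, hx0, hz, hth⟩ := hRoots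
  choose! thf hR using hth
  have ctx : ∀ T ∈ Set.Icc Tlo Thi, Ctx T (x0f T) (zf T) (thf T) := fun T hT =>
    hCtx T (x0f T) (zf T) (thf T) hT.1 hT.2 (hR T hT)
  have hbd : ∀ T ∈ Set.Icc Tlo Thi, 1.03 ≤ x0f T ∧ zf T ≤ 0.98 ∧ 0.9 ≤ zf T := by
    intro T hT
    have h := (ctx T hT).nr
    have h1 := h.x0_lo
    have h2 := h.z_lo
    have h3 := h.z_hi
    refine ⟨?_, ?_, ?_⟩ <;> linarith
  have hcont := hCont x0f zf hx0 hz hbd
  by_contra hno
  -- functions on the interval
  set X := Set.Icc Tlo Thi with hX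
  set F : ℕ → X → ℝ := fun k T => ztn T (x0f T) (zf T) (1525 + k) with hF
  set G : ℕ → X → ℝ := fun k T => Cn T (x0f T) (1525 + k) with hG
  have cG : ∀ k, Continuous (G k) := fun k =>
    continuousOn_iff_continuous_domRestrict.1 (hcont (1525 + k)).1
  have cz : ∀ k, Continuous (fun T : X => zn T (zf T) (1525 + k)) := fun k =>
    continuousOn_iff_continuous_domRestrict.1 (hcont (1525 + k)).2
  have cF : ∀ k (T : X), G k T ≠ 0 → ContinuousAt (F k) T := fun k T h =>
    (cz k).continuousAt.div (cG k).continuousAt h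
  -- good up to k
  let Good : ℕ → X → Prop := fun k T => ∀ i, i < k → 0 ≤ F i T ∧ F i T < 3 / 10 ^ 4
  have hPP : ∀ k (T : X), Good k T → ∀ i, i < k → PP T (x0f T) (zf T) (thf T) i := by
    intro k T h i hi
    exact hMain T (x0f T) (zf T) (thf T) (ctx T T.2) i
      (fun j hj => h j (by omega)) i le_rfl
  have hGpos : ∀ k (T : X), Good k T → ∀ i, i ≤ k → 0 < G i T := by
    intro k T h i hi
    rcases Nat.lt_or_ge i k with h1 | h1
    · exact (hPP k T h i h1).Cpos
    · have hik : i = k := le_antisymm hi h1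
      subst hik
      rcases Nat.eq_zero_or_pos i with h0 | h0
      · subst h0
        exact (ctx T T.2).sim.Cpos
      · obtain ⟨j, rfl⟩ : ∃ j, i = j + 1 := ⟨i - 1, by omega⟩
        exact (stepTools hP hC (ctx T T.2) (k := j)
          (fun l hl => hPP (j + 1) T h l (by omega))).1
  have hneg : ∀ k (T : X), Good k T → ∀ i, i < k → F i T ≤ 0 → F (i + 1) T ≤ 0 := by
    intro k T h i hi
    exact (stepTools hP hC (ctx T T.2) (k := i) (fun l hl => hPP k T h l (by omega))).2.1
  have hbig : ∀ k (T : X), Good k T → ∀ i, i < k → 2.5 / 10 ^ 4 < F i T →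
      2.5 / 10 ^ 4 < F (i + 1) T := by
    intro k T h i hi
    exact (stepTools hP hC (ctx T T.2) (k := i) (fun l hl => hPP k T h l (by omega))).2.2.1
  let U : Set X := {T | ∃ k, Good k T ∧ F k T < 0}
  let V : Set X := {T | ∃ k, Good k T ∧ 2.5 / 10 ^ 4 < F k T}
  have hUo : IsOpen U := by
    rw [isOpen_iff_mem_nhds]
    rintro T0 ⟨k, hk, hFk⟩
    have e1 : ∀ᶠ T in 𝓝 T0, ∀ i ∈ Finset.range k, F i T < 3 / 10 ^ 4 := by
      rw [Filter.eventually_all_finset]
      intro i hi
      have hi' := Finset.mem_range.1 hi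
      have := cF i T0 (ne_of_gt (hGpos k T0 hk i hi'.le))
      exact this.eventually_lt continuousAt_const (hk i hi').2
    have e2 : ∀ᶠ T in 𝓝 T0, F k T < 0 :=
      (cF k T0 (ne_of_gt (hGpos k T0 hk k le_rfl))).eventually_lt continuousAt_const hFk
    filter_upwards [e1, e2] with T h1 h2
    -- least index with negative value
    classical
    have hex : ∃ i, F i T < 0 := ⟨k, h2⟩
    refine ⟨Nat.find hex, ?_, Nat.find_spec hex⟩
    intro i hi
    have hile : i < k := lt_of_lt_of_le hi (Nat.find_min' hex h2)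
    exact ⟨not_lt.1 (Nat.find_min hex hi), h1 i (Finset.mem_range.2 hile)⟩
  have hVo : IsOpen V := by
    rw [isOpen_iff_mem_nhds]
    rintro T0 ⟨k, hk, hFk⟩
    have hpos : ∀ i, i < k → 0 < F i T0 := by
      intro i hi
      by_contra h0
      have h0' : F i T0 ≤ 0 := not_lt.1 h0
      have : ∀ j, i + j ≤ k → F (i + j) T0 ≤ 0 := by
        intro j
        induction j with
        | zero => intro _; exact h0'
        | succ j ih =>
          intro hj
          exact hneg k T0 hk (i + j) (by omega) (ih (by omega))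
      have h3 := this (k - i) (by omega)
      rw [show i + (k - i) = k by omega] at h3
      linarith
    have e1 : ∀ᶠ T in 𝓝 T0, ∀ i ∈ Finset.range k, 0 < F i T ∧ F i T < 3 / 10 ^ 4 := by
      rw [Filter.eventually_all_finset]
      intro i hi
      have hi' := Finset.mem_range.1 hi
      have hc := cF i T0 (ne_of_gt (hGpos k T0 hk i hi'.le))
      exact (continuousAt_const.eventually_lt hc (hpos i hi')).and
        (hc.eventually_lt continuousAt_const (hk i hi').2)
    have e2 : ∀ᶠ T in 𝓝 T0, 2.5 / 10 ^ 4 < F k T :=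
      continuousAt_const.eventually_lt (cF k T0 (ne_of_gt (hGpos k T0 hk k le_rfl))) hFk
    filter_upwards [e1, e2] with T h1 h2
    exact ⟨k, fun i hi => ⟨(h1 i (Finset.mem_range.2 hi)).1.le,
      (h1 i (Finset.mem_range.2 hi)).2⟩, h2⟩
  have hdisj : ∀ T, T ∈ U → T ∈ V → False := by
    rintro T ⟨k1, hk1, h1⟩ ⟨k2, hk2, h2⟩
    rcases lt_trichotomy k1 k2 with h | h | h
    · have := (hk2 k1 h).1
      linarith
    · subst h
      linarith
    · have : ∀ j, k2 + j ≤ k1 → 2.5 / 10 ^ 4 < F (k2 + j) T := by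
        intro j
        induction j with
        | zero => intro _; exact h2
        | succ j ih =>
          intro hj
          exact hbig k1 T hk1 (k2 + j) (by omega) (ih (by omega))
      have h3 := this (k1 - k2) (by omega)
      rw [show k2 + (k1 - k2) = k1 by omega] at h3
      linarith
  have hcov : ∀ T, T ∈ U ∨ T ∈ V := by
    intro T
    by_contra hT
    rw [not_or] at hT
    apply hno
    have hall : ∀ k, Good k T := by
      intro k
      induction k with
      | zero => intro i hi; omega
      | succ k ih =>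
        intro i hi
        rcases Nat.lt_or_ge i k with h | h
        · exact ih i h
        · have : i = k := by omega
          subst this
          constructor
          · by_contra h0
            exact hT.1 ⟨i, ih, not_le.1 h0⟩
          · by_contra h0
            refine hT.2 ⟨i, ih, ?_⟩
            have := not_lt.1 h0
            linarith
    exact ⟨T, x0f T, zf T, thf T, ctx T T.2, fun k => hPP (k + 1) T (hall (k + 1)) k (by omega)⟩
  have hle : Tlo ≤ Thi := by
    unfold Tlo Thi
    gcongr
    linarith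
  have hlo : (⟨Tlo, le_rfl, hle⟩ : X) ∈ U :=
    ⟨0, fun i hi => by omega, hSign.1 _ _ _ (hR Tlo ⟨le_rfl, hle⟩)⟩
  have hhi : (⟨Thi, hle, le_rfl⟩ : X) ∈ V := by
    set T1 : X := ⟨Thi, hle, le_rfl⟩ with hT1
    have hF0 : 1 / 10 ^ 40 < F 0 T1 := hSign.2 _ _ _ (hR Thi ⟨hle, le_rfl⟩)
    by_contra hV
    have key : ∀ k, k ≤ 1400 → Good (k + 1) T1 ∧ 1.0671475 ^ k / 10 ^ 40 ≤ F k T1 := by
      intro k
      induction k with
      | zero =>
        intro _
        refine ⟨?_, ?_⟩
        · intro i hi
          have : i = 0 := by omega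
          subst this
          have h1 := (ctx T1 T1.2).sim.zsmall
          have h2 : ztn T1 (x0f T1) (zf T1) 1525 = F 0 T1 := rfl
          rw [h2] at h1
          have h3 := (abs_le.1 h1).2
          have h4 : (0 : ℝ) < 1 / 10 ^ 40 := by positivity
          constructor
          · linarith
          · refine lt_of_le_of_lt h3 ?_
            norm_num
        · rw [pow_zero]
          exact hF0.le
      | succ k ih =>
        intro hk
        obtain ⟨hg, hb⟩ := ih (by omega)
        have hq := hQuiet T1 (x0f T1) (zf T1) (thf T1) (ctx T1 T1.2) k (by omega)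
          (fun i hi => hg i (by omega))
        have hst := (stepTools hP hC (ctx T1 T1.2) (k := k) (fun i hi => (hq i hi).1)).2.2.2
          (hq k le_rfl).2.2.1
        have hr := (ctx T1 T1.2).nr.ratio
        have hFp : 0 ≤ F k T1 := (hg k (by omega)).1
        have hb2 : 1.0671475 ^ (k + 1) / 10 ^ 40 ≤ F (k + 1) T1 := by
          have e : F (k + 1) T1 = x0f T1 / zf T1 * F k T1 := hst
          rw [e, pow_succ]
          calc (1.0671475 : ℝ) ^ k * 1.0671475 / 10 ^ 40
              = 1.0671475 * (1.0671475 ^ k / 10 ^ 40) := by ring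
            _ ≤ 1.0671475 * F k T1 := by gcongr
            _ ≤ x0f T1 / zf T1 * F k T1 := by gcongr
        refine ⟨?_, hb2⟩
        intro i hi
        rcases Nat.lt_or_ge i (k + 1) with h | h
        · exact hg i h
        · have : i = k + 1 := by omega
          subst this
          constructor
          · refine le_trans ?_ hb2
            positivity
          · by_contra h0
            apply hV
            refine ⟨k + 1, hg, ?_⟩
            have := not_lt.1 h0
            linarith
    obtain ⟨hg, hb⟩ := key 1400 le_rfl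
    have h1 := (hg 1400 (by omega)).2
    have h2 : (3 : ℝ) / 10 ^ 4 ≤ 1.0671475 ^ 1400 / 10 ^ 40 := by
      have h3 : (8000 : ℝ) ≤ 1.0671475 ^ 140 := by
        calc (8000 : ℝ) ≤ 1.067 ^ 140 := by norm_num
          _ ≤ 1.0671475 ^ 140 := by gcongr; norm_num
      have h4 : (3 / 10 ^ 4 * 10 ^ 40 : ℝ) ≤ 1.0671475 ^ 1400 := by
        calc (3 / 10 ^ 4 * 10 ^ 40 : ℝ) ≤ 8000 ^ 10 := by norm_num
          _ ≤ (1.0671475 ^ 140) ^ 10 := by gcongr
          _ = 1.0671475 ^ 1400 := by rw [← pow_mul]
      rw [le_div_iff₀ (by positivity)]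
      exact h4
    exact absurd h1 (not_lt.2 (le_trans h2 hb))
  -- connectedness
  have : PreconnectedSpace X := Subtype.preconnectedSpace isPreconnected_Icc
  have hcl : IsClopen U := by
    refine ⟨⟨?_⟩, hUo⟩
    have : Uᶜ = V := by
      ext T
      constructor
      · intro h
        exact (hcov T).resolve_left h
      · intro h h'
        exact hdisj T h' h
    rw [this]
    exact hVo
  rcases isClopen_iff.1 hcl with h | h
  · rw [h] at hlo
    exact hlo
  · exact hdisj _ (h ▸ Set.mem_univ _) hhi

end SA.H28
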